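import Mathlib
import Pool.Agent.Helper351.RE.C4

set_option autoImplicit false

namespace Pool.Agent.Results.MP_3a7e96_al.LocallyIndicable

/-- Every nontrivial finitely generated subgroup has a homomorphism onto the infinite cyclic group. -/
def LocInd (A : Type) [Group A] : Prop :=
  ∀ K : Subgroup A, K.FG → K ≠ ⊥ → ∃ φ : K →* Multiplicative ℤ, Function.Surjective φ

/-- Every finitely generated subgroup can be generated by at most `r` elements. -/
def RankLE (r : ℕ) (G : Type) [Group G] : Prop :=
  ∀ S : Subgroup G, S.FG → ∃ T : Finset G, T.card ≤ r ∧ Subgroup.closure (T : Set G) = S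

/-- `g` is a left Engel element: for every `x` some `n`-fold commutator `[x, g, …, g]` is trivial. -/
def LeftEngel {G : Type} [Group G] (g : G) : Prop :=
  ∀ x : G, ∃ n : ℕ, (fun y : G => y⁻¹ * g⁻¹ * y * g)^[n] x = 1

/-- The smallest class of groups that contains the trivial groups and that contains `G` as soon as it
contains `G ⧸ A` for some normal subgroup `A` of `G` which is abelian, finite or locally indicable. -/
inductive PolyLI : ∀ (G : Type) [Group G], Prop
  | triv (G : Type) [Group G] (h : ∀ x : G, x = 1) : PolyLI G
  | ext (G : Type) [Group G] (A : Subgroup G) [A.Normal]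
      (hA : (∀ x ∈ A, ∀ y ∈ A, x * y = y * x) ∨ Finite A ∨ LocInd A)
      (hQ : PolyLI (G ⧸ A)) : PolyLI G

theorem to_lib (G : Type) [Group G] (h : PolyLI G) : Pool.Agent.Helper351.RE.PolyLI G := by
  induction h with
  | triv G h => exact Pool.Agent.Helper351.RE.PolyLI.triv G h
  | ext G A hA hQ ih => exact Pool.Agent.Helper351.RE.PolyLI.ext G A hA ih

/-- (i) Let `G` be a group of finite rank in the class `PolyLI`. Then every subgroup generated by finitely many
left Engel elements of `G` is nilpotent, and the left Engel elements of `G` form a subgroup.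
(ii) If `G` is locally indicable of rank at most `r` then every subgroup generated by finitely many left
Engel elements of `G` is nilpotent of class at most `2 * r`. -/
theorem result :
    (∀ (G : Type) [Group G], (∃ r : ℕ, RankLE r G) → PolyLI G →
      (∀ (k : ℕ) (b : Fin k → G), (∀ i, LeftEngel (b i)) →
        Group.IsNilpotent (Subgroup.closure (Set.range b))) ∧
      ∃ H : Subgroup G, (H : Set G) = {g : G | LeftEngel g}) ∧
    (∀ (r : ℕ) (G : Type) [Group G], RankLE r G → LocInd G →
      ∀ (k : ℕ) (b : Fin k → G), (∀ i, LeftEngel (b i)) →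
        Subgroup.lowerCentralSeries (Subgroup.closure (Set.range b)) (2 * r) = ⊥) := by
  refine ⟨?_, ?_⟩
  · intro G _ hr h
    obtain ⟨r, hr⟩ := hr
    have hNE := Pool.Agent.Helper351.RE.ne_poly G r (to_lib G h) hr
    refine ⟨?_, ?_⟩
    · intro k b hb
      obtain ⟨c, hc⟩ := hNE k b hb
      rw [Subgroup.nilpotent_iff_lowerCentralSeries]
      refine ⟨c, ?_⟩
      rw [← Subgroup.top_subtype_lowerCentralSeries, Subgroup.map_eq_bot_iff,
        Subgroup.ker_subtype] at hc
      exact le_bot_iff.1 hc
    · obtain ⟨H, hH⟩ := Pool.Agent.Helper351.RE.engel_main G hNE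
      refine ⟨H, ?_⟩
      ext g
      exact hH g
  · intro r G _ hr h k b hb
    exact Pool.Agent.Helper351.RE.li_class G r h hr k b hb

end Pool.Agent.Results.MP_3a7e96_al.LocallyIndicable
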